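import Pool.Agent.W58.GU.Stm

/-! GU-AVG (helper782): averages of rapidly increasing families. -/

set_option autoImplicit false

namespace Pool.Agent.W782.GU

open Finset Pool.Agent.W58.GU

theorem avg (hs : S_STEP) (hh : S_HI) (hb : S_BI) : S_AVG := by
  intro P C ε E x j hC hε hF i hcard hεN
  obtain ⟨a, ha1, hai, haN⟩ := P.hn i
  set m := P.m i with hm
  set N := P.n i with hN
  have hm2 : 2 ≤ m := P.two_le i
  have hmR : (2 : ℝ) ≤ m := by exact_mod_cast hm2
  have hm0 : (0 : ℝ) < m := by linarith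
  have hN0 : (0 : ℝ) < N := by exact_mod_cast P.n_pos i
  have ha1R : (1 : ℝ) ≤ a := by exact_mod_cast ha1
  have haNR : (m : ℝ) ^ 2 * (3 * a) ^ (2 * m + 1) ≤ N := by exact_mod_cast haN
  have h3a : (1 : ℝ) ≤ 3 * a := by linarith
  have hpow1 : ∀ k : ℕ, (1 : ℝ) ≤ (3 * (a : ℝ)) ^ k := fun k => one_le_pow₀ h3a
  have hpk : ∀ k ≤ 2 * m + 1, (m : ℝ) ^ 2 * (3 * a) ^ k ≤ N := by
    intro k hk
    refine le_trans ?_ haNR
    exact mul_le_mul_of_nonneg_left (pow_le_pow_right₀ h3a hk) (by positivity)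
  have hm2N : (m : ℝ) ^ 2 ≤ N := by simpa using hpk 0 (by omega)
  have hεN' : ε * N ≤ 1 := by
    rw [le_div_iff₀ hN0] at hεN
    exact hεN
  have hmid : ∀ f, InK P f → ∀ E' ⊆ E, |pr f (∑ k ∈ E', x k : ℕ →₀ ℝ)| ≤
      C * ((3 * a) ^ m + 1 / m * E'.card + ε * E'.card) := by
    intro f hf E' hE'
    have h1 := hb P C ε E x j hC hε hF i a (1 / m) ha1 hai (by positivity) (by
      intro i' hi' f hf E' hE'
      refine (hh P C ε E x j hC hε hF i' f hf E' hE').trans ?_
      have h2 : (1 : ℝ) / P.m i' ≤ 1 / m := by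
        apply one_div_le_one_div_of_le hm0
        exact_mod_cast P.m_mono.monotone hi'
      gcongr) m f hf E' hE'
    have h3 : max ((1 / 2 : ℝ) ^ m) (1 / m) = 1 / m := by
      apply max_eq_right
      rw [one_div_pow]
      apply one_div_le_one_div_of_le hm0
      exact_mod_cast (Nat.lt_two_pow_self (n := m)).le
    rw [h3] at h1
    exact_mod_cast h1
  have hsc : ∀ f : ℕ →₀ ℚ, |pr f (((m : ℝ) / N) • ∑ k ∈ E, x k : ℕ →₀ ℝ)| =
      (m / N) * |pr f (∑ k ∈ E, x k : ℕ →₀ ℝ)| := by
    intro f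
    have : pr f (((m : ℝ) / N) • ∑ k ∈ E, x k : ℕ →₀ ℝ) =
        ((m : ℝ) / N) * pr f (∑ k ∈ E, x k : ℕ →₀ ℝ) := by
      rw [← pr_smul_right]; rfl
    rw [this, abs_mul, abs_of_pos (by positivity)]
  have hcardR : (E.card : ℝ) = N := by exact_mod_cast hcard
  have hmε : (m : ℝ) * ε * N ≤ m := by nlinarith
  refine ⟨?_, ?_, ?_⟩
  · intro f hf
    rw [hsc]
    have h1 := hmid f hf E subset_rfl
    rw [hcardR] at h1
    calc (m / N : ℝ) * |pr f (∑ k ∈ E, x k : ℕ →₀ ℝ)|
        ≤ (m / N) * (C * ((3 * a) ^ m + 1 / m * N + ε * N)) := by gcongr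
      _ = C * ((m * (3 * a) ^ m + N + m * (ε * N)) / N) := by field_simp
      _ ≤ C * 3 := by
          gcongr
          rw [div_le_iff₀ hN0]
          have h2 := hpk m (by omega)
          have h3 : (m : ℝ) * (3 * a) ^ m ≤ N := by
            refine le_trans ?_ h2
            have := hpow1 m
            nlinarith [mul_nonneg hm0.le (by linarith : (0 : ℝ) ≤ (3 * (a : ℝ)) ^ m)]
          have h4 : (m : ℝ) * (ε * N) ≤ N := by nlinarith
          linarith
      _ = 3 * C := by ring
  · intro i' hi' f hf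
    rw [hsc]
    set m' := P.m i' with hm'
    have hm'0 : (0 : ℝ) < m' := by exact_mod_cast P.m_pos i'
    have hm'm : (m' : ℝ) ≤ m := by exact_mod_cast P.m_mono.monotone hi'.le
    have h1 := hs P C ε E x j hC hε hF ((3 * a) ^ m) (1 / m) (hpow1 m) (by positivity) hmid a i'
      ha1 (hai i' hi') f hf E subset_rfl
    rw [hcardR] at h1
    calc (m / N : ℝ) * |pr f (∑ k ∈ E, x k : ℕ →₀ ℝ)|
        ≤ (m / N) * (C * (3 * a * (3 * a) ^ m + 1 / m / m' * N + ε * N)) := by gcongr
      _ = C * ((m * (3 * a) ^ (m + 1) + N / m' + m * (ε * N)) / N) := by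
          rw [pow_succ]
          field_simp
      _ ≤ C * (3 / m') := by
          refine mul_le_mul_of_nonneg_left ?_ hC
          rw [div_le_iff₀ hN0]
          have h2 : (m : ℝ) * (3 * a) ^ (m + 1) ≤ N / m' := by
            rw [le_div_iff₀ hm'0]
            refine le_trans ?_ (hpk (m + 1) (by omega))
            have := hpow1 (m + 1)
            have h5 : (m : ℝ) * m' ≤ m ^ 2 := by nlinarith
            nlinarith [mul_le_mul_of_nonneg_right h5 (by linarith : (0 : ℝ) ≤ (3 * (a : ℝ)) ^ (m + 1))]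
          have h4 : (m : ℝ) * (ε * N) ≤ N / m' := by
            rw [le_div_iff₀ hm'0]
            have h5 : (m : ℝ) * m' ≤ m ^ 2 := by nlinarith
            have h6 : (m : ℝ) * (ε * N) * m' ≤ m * 1 * m' := by gcongr
            nlinarith
          have h7 : 3 / (m' : ℝ) * N = N / m' + N / m' + N / m' := by ring
          linarith
      _ = 3 * C / m' := by ring
  · intro i' hi' f hf
    rw [hsc]
    set m' := P.m i' with hm'
    have hm'0 : (0 : ℝ) < m' := by exact_mod_cast P.m_pos i'
    have hm'm : (m : ℝ) ^ 2 ≤ m' := by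
      have h1 := P.hm2 i
      have h2 : P.m (i + 1) ≤ m' := P.m_mono.monotone hi'
      exact_mod_cast h1.trans h2
    have h1 := hh P C ε E x j hC hε hF i' f hf E subset_rfl
    rw [hcardR] at h1
    calc (m / N : ℝ) * |pr f (∑ k ∈ E, x k : ℕ →₀ ℝ)|
        ≤ (m / N) * (C * (1 + 1 / m' * N + ε * N)) := by gcongr
      _ = C * (m / N + m / m' + m * (ε * N) / N) := by
          field_simp
      _ ≤ C * (3 / m) := by
          refine mul_le_mul_of_nonneg_left ?_ hC
          have h2 : (m : ℝ) / N ≤ 1 / m := by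
            rw [div_le_div_iff₀ hN0 hm0]
            nlinarith
          have h3 : (m : ℝ) / m' ≤ 1 / m := by
            rw [div_le_div_iff₀ hm'0 hm0]
            nlinarith
          have h4 : (m : ℝ) * (ε * N) / N ≤ 1 / m := by
            refine le_trans ?_ h2
            gcongr
            nlinarith
          have h7 : 3 / (m : ℝ) = 1 / m + 1 / m + 1 / m := by ring
          linarith
      _ = 3 * C / m := by ring

end Pool.Agent.W782.GU
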